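import Pool.Agent.Helper55.Final

set_option autoImplicit false

/-!
Straight-line realizability of linear hypergraphs is hard for the existential theory of the reals
already for inputs of rank at most three.
-/

namespace Pool.Agent.Results.MP_cb2e2a_lc.RankThreeHard

open Pool.Agent.Helper55

/-- For every `k ≥ 3`, linear hypergraph realizability restricted to inputs of rank at most `k` is
hard for the existential theory of the reals: every decision problem which reduces in polynomial
time to the truth of existential sentences over the reals reduces to it in polynomial time. -/
theorem result : ∀ k : ℕ, 3 ≤ k → ExistsRHard (LinearHypergraphRealizability k) := hard

end Pool.Agent.Results.MP_cb2e2a_lc.RankThreeHard
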